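import Pool.Agent.MP_25e033_co.Mg.Triples

set_option autoImplicit false

namespace Pool.Agent.Results.MP_25e033_co.Nelder

open Pool.Agent.MP_25e033_co

/-- Every uniquely completable set of every latin square of order `n` has at least `⌊n²/4⌋`
entries. -/
theorem result (n : ℕ) (L P : Finset (Fin n × Fin n × Fin n)) (hL : IsLatin L)
    (hP : IsUC L P) : n ^ 2 / 4 ≤ P.card :=
  nelder_triples n L P hL hP

end Pool.Agent.Results.MP_25e033_co.Nelder
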